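import Pool.Agent.R431.W.Loc
import Pool.Agent.R431.W.Pts
import Pool.Agent.R431.W.Lf
import Pool.Agent.R431.W.Hbk
import Pool.Agent.Results.MP_9ab903_nt.ThreePartCubicTwists

/-!
# The 3-part of the Birch and Swinnerton-Dyer conjecture for the abelian surfaces
# `Res_{K/ℚ} (y² + D y = x³)`, `K = ℚ(√-3)`

`K` is the field of third roots of unity, `D` runs through the squarefree `D = 1` modulo `3` of `𝓞 K`
whose norm is not `1` modulo `9`; there are at least `c X` such `D` of norm at most `X`.  Let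
`E_D : y² + D y = x³`, an elliptic curve over `K`, and `A_D = Res_{K/ℚ} E_D`, an abelian surface over
`ℚ` with an action of `ℤ[ω]`, principally polarized, so that `A_D' = A_D`; over the algebraic closure
`A_D` is isomorphic to the square of `y² + y = x³`.

* For all these `D` the `L`-function of `A_D` is entire, the torsion subgroup of `A_D(ℚ)` is finite,
  its order is divisible by `3` and not by `9`, and the quotient `ρ` of `L(A_D, 1)` and of the
  right-hand side of the conjecture (for rank `0`) without the order of `Ш(A_D/ℚ)` is integral at every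
  valuation of `ℂ` above `3`, and it is a unit there if and only if `A_D(ℚ)` is finite and
  `Ш(A_D/ℚ)[3^∞] = 0`.  This is the case exactly when the Laplacian of the matrix of the cubic residue
  symbols of the prime divisors of `D` has no kernel but the constants.
* The proportion of the `D` for which `A_D(ℚ)` is finite, `Ш(A_D/ℚ)[3^∞] = 0`, `L(A_D, 1) ≠ 0` and `ρ`
  is a unit above `3` tends to `∏_{i ≥ 0} (1 - 3^{-(2 i + 1)}) = 0.6390...`.

The points of `A_D` over an algebraic closure of `ℚ`, with the action of the Galois group, and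
`Ш(A_D/ℚ)`, defined by cocycles which are trivial at all the `ℚ_p` and at `ℝ`, are in
`Pool.Agent.R431.W.Defs`.  The volumes: the Néron model of `A_D` is the restriction of scalars of
that of `E_D`, so that `ω` takes the values `1`, `-1` on a basis of the lattice `𝓞_K` of tangent
vectors, in units dual to the Néron differential of `E_D`, and
`V_∞ = ∫_{A_D(ℝ)} |ω| = ∫_{ℂ/Λ} (2 / √|disc K|) dx dy` for the period lattice `Λ` of `E_D`, and the
Tamagawa number `c_p` of `A_D` is the product of the Tamagawa numbers `c_v` of `E_D` for `v ∣ p`.  The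
`L`-function has its Euler factors at all the primes, so that the factor of `V_bad` at `p`,
`c_p #𝒜⁰(𝔽_p) / p² = c_p P_p(1 / p)`, is replaced by `c_p`.

The statements for the curves `E_D` over `K` are joint work of the seats named in
`Pool.Agent.Results.MP_9ab903_nt.ThreePartCubicTwists`.
-/

set_option autoImplicit false

namespace Pool.Agent.Results.MP_dfae13_nt.EisensteinSurfaces

open NumberField IsDedekindDomain WeierstrassCurve
open Pool.Agent.Y696 (NonsingRed)
open Pool.Agent.R431.W (ptsA torA ShaTrivial euler)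
open scoped Classical

/-- The curve `E_D : y² + D y = x³`. -/
def curve {K : Type} [Field K] (D : K) : WeierstrassCurve K := ⟨0, 0, D, 0, 0⟩

variable {K : Type} [Field K] [NumberField K]

/-- `D` is squarefree and `1` modulo `3`, and its norm is not `1` modulo `9`. -/
def InClass (D : 𝓞 K) : Prop :=
  (3 : 𝓞 K) ∣ D - 1 ∧ Squarefree D ∧ ¬ (9 : ℤ) ∣ Algebra.norm ℤ D - 1

/-- The equation `W` is minimal at every finite place `v`, the number `c v` is the index of the
group of the points of nonsingular reduction in `W(K_v)` (the Tamagawa number), and `c v = 1` for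
all but finitely many `v`. -/
def IsTamagawa (W : WeierstrassCurve K) (c : HeightOneSpectrum (𝓞 K) → ℕ) : Prop :=
  (∀ v : HeightOneSpectrum (𝓞 K),
    IsMinimal (v.adicCompletionIntegers K) (W.baseChange (v.adicCompletion K)) ∧
    ∃ H : AddSubgroup (W.baseChange (v.adicCompletion K)).toAffine.Point,
      (∀ P, P ∈ H ↔ NonsingRed Valued.v (W.baseChange (v.adicCompletion K)) P) ∧
      H.index = c v) ∧
  {v | c v ≠ 1}.Finite

/-- `A_D(ℚ)` is finite and `Ш(A_D/ℚ)[3^∞] = 0`, where `A_D = Res_{K/ℚ} E_D`. -/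
def FiniteAndTrivial (D : 𝓞 K) : Prop :=
  (ptsA (curve (D : K))).Finite ∧ ShaTrivial (curve (D : K)) 3

/-- The order of the torsion subgroup of `A_D(ℚ)`. -/
noncomputable def torsionOrder (D : 𝓞 K) : ℕ := Nat.card (torA (curve (D : K)))

variable (K) in
/-- `V_∞ = ∫_{A(ℝ)} |ω|` for `A = Res_{K/ℚ} E`, `K` imaginary quadratic: the area of a fundamental
parallelogram of the period lattice of `E` times `2 / √|disc K|`. -/
noncomputable def Vinf (Λ : PeriodPair) : ℝ :=
  2 * |((starRingEnd ℂ) Λ.ω₁ * Λ.ω₂).im| / Real.sqrt |(discr K : ℝ)|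

/-- The torsion subgroup of `A_D(ℚ)` is finite, of order divisible by `3` and not by `9`; `L` is an
entire function, the `L`-function of `A_D`; for every embedding `σ` of `K` and every period lattice
`Λ` of `E_D` (with `g₂ = 0`, `g₃ = - σ(D)²`; such a `Λ` exists)
`L 1 = ρ · V_∞ · ∏ c_v / |A_D(ℚ)_tors|²`, where `ρ` is integral at every valuation `v` of
`ℂ` above `3`, and a unit if and only if `A_D(ℚ)` is finite and `Ш(A_D/ℚ)[3^∞] = 0`. -/
def Law (D : 𝓞 K) : Prop :=
  (torA (curve (D : K))).Finite ∧ padicValNat 3 (torsionOrder D) = 1 ∧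
  ∃ (L : ℂ → ℂ) (c : HeightOneSpectrum (𝓞 K) → ℕ),
    Differentiable ℂ L ∧
    (∀ s : ℂ, 3 / 2 < s.re → HasProd (fun p : Nat.Primes => euler (curve (D : K)) s p) (L s)) ∧
    (FiniteAndTrivial D → L 1 ≠ 0) ∧
    IsTamagawa (curve (D : K)) c ∧
    ∀ σ : K →+* ℂ, (∃ Λ : PeriodPair, Λ.g₂ = 0 ∧ Λ.g₃ = -(σ D) ^ 2) ∧
      ∀ Λ : PeriodPair, Λ.g₂ = 0 → Λ.g₃ = -(σ D) ^ 2 → ∃ ρ : ℂ,
        L 1 = ρ * ((Vinf K Λ : ℂ) * ((∏ᶠ w, c w : ℕ) : ℂ) / (torsionOrder D : ℂ) ^ 2) ∧
        ∀ (Γ : Type) [LinearOrderedCommGroupWithZero Γ] (v : Valuation ℂ Γ), v 3 < 1 →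
          v ρ ≤ 1 ∧ (v ρ = 1 ↔ FiniteAndTrivial D)

/-- `D` is the product of the primes `π i`, which are `1` modulo `3`, and the cubic residue symbol
of `π i` modulo `π j` is `ω ^ χ j i`. -/
def IsFactorization (ω D : 𝓞 K) (n : ℕ) (π : Fin n → 𝓞 K) (χ : Fin n → Fin n → ZMod 3) : Prop :=
  (∀ i, Prime (π i) ∧ (3 : 𝓞 K) ∣ π i - 1) ∧ D = ∏ i, π i ∧
  ∀ i j, i ≠ j →
    π j ∣ π i ^ (((Algebra.norm ℤ (π j)).natAbs - 1) / 3) - ω ^ (χ j i).val

/-- The kernel of the Laplacian of `χ` over the field with three elements consists of the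
constants. -/
def IsConnected {n : ℕ} (χ : Fin n → Fin n → ZMod 3) : Prop :=
  ∀ v : Fin n → ZMod 3, (∀ j, ∑ i, χ j i * (v i - v j) = 0) → ∀ i j, v i = v j

/-- `D` has a factorization, and for each one: `A_D(ℚ)` is finite and `Ш(A_D/ℚ)[3^∞] = 0` if and
only if the kernel of the Laplacian of the cubic residue symbols consists of the constants. -/
def Criterion (D : 𝓞 K) : Prop :=
  (∃ (ω : 𝓞 K) (n : ℕ) (π : Fin n → 𝓞 K) (χ : Fin n → Fin n → ZMod 3),
    ω ^ 2 + ω + 1 = 0 ∧ IsFactorization ω D n π χ) ∧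
  ∀ (ω : 𝓞 K) (n : ℕ) (π : Fin n → 𝓞 K) (χ : Fin n → Fin n → ZMod 3),
    ω ^ 2 + ω + 1 = 0 → IsFactorization ω D n π χ → (FiniteAndTrivial D ↔ IsConnected χ)

/-- The condition on `A_D` over `ℚ` is the condition on `E_D` over `K`. -/
theorem finiteAndTrivial_iff (D : 𝓞 K) : FiniteAndTrivial D ↔
    Pool.Agent.Results.MP_9ab903_nt.ThreePartCubicTwists.FiniteAndTrivial D := by
  have h1 : (ptsA (curve (D : K))).Finite ↔ Finite (curve (D : K)).toAffine.Point := by
    rw [← Set.finite_coe_iff]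
    exact (Equiv.finite_iff (Pool.Agent.R431.W.globE (curve (D : K)))).symm
  have h2 : ShaTrivial (curve (D : K)) 3 ↔
      ∀ (n : ℕ) (x : Pool.Agent.TH841.NF.D.Sha (curve (D : K))), 3 ^ n • x = 0 → x = 0 :=
    forall_congr' fun n => Pool.Agent.R431.W.sha_iff (curve (D : K)) (3 ^ n)
  exact and_congr h1 h2

theorem torsionOrder_eq (D : 𝓞 K) : torsionOrder D =
    Pool.Agent.Results.MP_9ab903_nt.ThreePartCubicTwists.torsionOrder D :=
  (Nat.card_congr (Pool.Agent.R431.W.torE (curve (D : K)))).symm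

/-- **Main theorem.** -/
theorem result (K : Type) [Field K] [NumberField K] [IsCyclotomicExtension {3} ℚ K] :
    (∃ c : ℝ, 0 < c ∧ ∃ X₀ : ℕ, ∀ X : ℕ, X₀ ≤ X →
      c * X ≤ ({D : 𝓞 K | Algebra.norm ℤ D ≤ X ∧ InClass D}.ncard : ℝ)) ∧
    (∀ D : 𝓞 K, InClass D → Law D ∧ Criterion D) ∧
    Filter.Tendsto (fun X : ℕ =>
      ({D : 𝓞 K | Algebra.norm ℤ D ≤ X ∧ InClass D ∧ FiniteAndTrivial D}.ncard : ℝ) /
        ({D : 𝓞 K | Algebra.norm ℤ D ≤ X ∧ InClass D}.ncard : ℝ)) Filter.atTop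
      (nhds (∏' i : ℕ, (1 - (1 / 3 : ℝ) ^ (2 * i + 1)))) ∧
    (0.639 : ℝ) < ∏' i : ℕ, (1 - (1 / 3 : ℝ) ^ (2 * i + 1)) ∧
    ∏' i : ℕ, (1 - (1 / 3 : ℝ) ^ (2 * i + 1)) < 0.6391 := by
  obtain ⟨h1, h2, h3, h4, h5⟩ :=
    Pool.Agent.Results.MP_9ab903_nt.ThreePartCubicTwists.result K
  refine ⟨h1, fun D hD => ⟨?_, ?_⟩, ?_, h4, h5⟩
  · obtain ⟨⟨k1, k2, L, c, k3, k4, k5, k6, k7⟩, -⟩ := h2 D hD
    refine ⟨?_, ?_, L, c, k3, ?_, ?_, k6, fun σ => ⟨(k7 σ).1, ?_⟩⟩
    · exact Set.finite_coe_iff.1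
        ((Equiv.finite_iff (Pool.Agent.R431.W.torE (curve (D : K)))).1 k1)
    · rw [torsionOrder_eq]
      exact k2
    · intro s hs
      rw [(k4 s hs).2]
      exact Pool.Agent.R431.W.hasProd_euler (curve (D : K)) (Pool.Agent.R431.W.hbk K D hD) hs
    · intro hT
      exact k5 ((finiteAndTrivial_iff D).1 hT)
    · intro Λ hΛ2 hΛ3
      obtain ⟨ρ, m1, m2⟩ := (k7 σ).2 Λ hΛ2 hΛ3
      refine ⟨ρ, ?_, ?_⟩
      · rw [m1, torsionOrder_eq]
        congr 1
        unfold Vinf
        push_cast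
        have h11 : ((Real.sqrt |(discr K : ℝ)| : ℝ) : ℂ) ≠ 0 := by
          rw [Ne, Complex.ofReal_eq_zero, Real.sqrt_eq_zero (abs_nonneg _), abs_eq_zero]
          exact_mod_cast discr_ne_zero K
        rw [div_mul_eq_mul_div, div_div]
      · intro Γ _ v hv
        rw [finiteAndTrivial_iff]
        exact m2 Γ v hv
  · obtain ⟨-, k1, k2⟩ := h2 D hD
    refine ⟨k1, fun ω n π χ hω hf => ?_⟩
    rw [finiteAndTrivial_iff]
    exact k2 ω n π χ hω hf
  · have h6 : ∀ X : ℕ, {D : 𝓞 K | Algebra.norm ℤ D ≤ X ∧ InClass D ∧ FiniteAndTrivial D} =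
        {D : 𝓞 K | Algebra.norm ℤ D ≤ X ∧
          Pool.Agent.Results.MP_9ab903_nt.ThreePartCubicTwists.InClass D ∧
          Pool.Agent.Results.MP_9ab903_nt.ThreePartCubicTwists.FiniteAndTrivial D} := by
      intro X
      ext D
      exact and_congr_right fun _ => and_congr_right fun _ => finiteAndTrivial_iff D
    simp only [h6]
    exact h3

end Pool.Agent.Results.MP_dfae13_nt.EisensteinSurfaces
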