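import Pool.Agent.R431.B.Fin

/-!
# The 2-part of the Birch and Swinnerton-Dyer conjecture for `E ⊗ M`, `E : y² + y = x³`, and
# extensions of 2-power degree of `ℚ` which are not abelian

`E` is the elliptic curve `y² + y = x³` over `ℚ`, of discriminant `-27`, `F` is the field of third roots
of unity, and `K` is a Galois extension of `ℚ` which contains `F`, of degree `2 ^ n` over `F`, with an
Artin map of modulus `m` over `F`, where `2` is not a cube modulo any prime number that divides `m`.  By
class field theory these are all the fields `K` of 2-power degree which are Galois over `ℚ`, abelian over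
`F` and unramified over `F` outside of the primes `l = 1` modulo `3` for which `2` is not a cube modulo
`l`.  The Galois group of `K / ℚ` is not abelian in general; it is a dihedral group if `K` is cyclic over
`F` and contained in a ring class field.

`M = ℤ^g` is a lattice with an arbitrary action `ρ` of the Galois group of `K / ℚ`, `g` arbitrary, and
`A = E ⊗ M`, an abelian variety over `ℚ` of dimension `g`; its dual is `A' = E ⊗ M^∨`.  For
`M = ℤ[Gal(K/ℚ)]` it is the restriction of scalars of `E` from `K` to `ℚ`; `L(A, s)` is the `L`-function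
of `E` twisted by the representation `ρ`, which has dihedral and other components that are not
abelian.  We prove the 2-part of the Birch and Swinnerton-Dyer conjecture for `A`: `A(ℚ)` and `A'(ℚ)` are
finite of odd order, `Ш(A/ℚ)[2^∞] = 0`, the `L`-function of `A` is continued to a meromorphic function on
`ℂ`, analytic at `s = 1`, `L(A, 1) ≠ 0`, and `L(A, 1) / V_∞` is a unit at every valuation of the field of
complex numbers above `2`.

The `L`-function has its Euler factors at all the primes, so that the factor `c_p #𝒜⁰(𝔽_p) / p^g` of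
`V_bad` at a bad prime `p` is replaced by the Tamagawa number `c_p`.

The terms which do not appear.  The volume of `A(ℝ) = (E(ℂ) ⊗ M)^c` for the differential given by a basis
of `M` and the Néron differential of `E` is `Vinf`, where `c` is the complex conjugation, as the
discriminant of `E` is negative.  The field `K` is tamely ramified at the primes `l ∣ m`, where `E` has
good reduction, and at `3`, where `A` is isogenous, by isogenies of degrees prime to `3`, to a product of
copies of `E` and of its twist by `-3`; so the Néron differential of `A` is, up to sign, the product of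
that differential and of powers of the numbers `√l` and `√3`, which are units at `2`.  The 2-part
of the group of the components of the Néron model of `A` at `l ∣ m` is the torsion of
`H¹(I_l, T₂ E ⊗ M) = T₂ E ⊗ H¹(I_l, M)`, and the Frobenius automorphism has no invariants in it, because it
acts on `E[2]` by an automorphism of order three (`2` is not a cube modulo `l`) and by an automorphism
of order a power of two on the other factor; the 2-part at `3` is zero, since the wild inertia
group acts trivially on `M` and without invariants on `T₂ E`.  So the Tamagawa numbers are odd.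
-/

set_option autoImplicit false

namespace Pool.Agent.Results.MP_dfae13_nt.EisensteinTensor

open NumberField IsDedekindDomain WeierstrassCurve MeasureTheory

open scoped Classical

open Pool.Agent.TH841.SH.D (Pt act Gal)

open Pool.Agent.Y696 (IsArtin)

/-- The curve `E : y² + y = x³`. -/
def curve : WeierstrassCurve ℤ := ⟨0, 0, 1, 0, 0⟩

/-- The curve given by the equation of `W` over the ring `R`. -/
abbrev base (W : WeierstrassCurve ℤ) (R : Type) [CommRing R] : WeierstrassCurve R :=
  W.map (Int.castRingHom R)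

/-- The number of the affine points `(x, y)` over the ring `R`. -/
noncomputable def pts (W : WeierstrassCurve ℤ) (R : Type) [CommRing R] : ℕ :=
  Nat.card {P : R × R // (base W R).toAffine.Equation P.1 P.2}

/-- `4 x³ + b₂ x² + 2 b₄ x + b₆ = (2 y + a₁ x + a₃)²`, where `b₂ = a₁² + 4 a₂`,
`b₄ = 2 a₄ + a₁ a₃`, `b₆ = a₃² + 4 a₆`. -/
def cubic (W : WeierstrassCurve ℤ) {R : Type} [CommRing R] (x : R) : R :=
  4 * x ^ 3 + W.b₂ * x ^ 2 + 2 * W.b₄ * x + W.b₆

/-- `∫_{W(ℝ)} |ω|` with `ω = dx / (2 y + a₁ x + a₃)`, as an integral over `x`: two real points lie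
over each `x` with `cubic x > 0`. -/
noncomputable def realPeriod (W : WeierstrassCurve ℤ) : ℝ :=
  2 * ∫ x in {x : ℝ | 0 < cubic W x}, 1 / √(cubic W x)

/-- `2 ∫_{W(ℂ)} |ω ∧ ω̄|`, where `|ω ∧ ω̄| = du dv` in a local parameter `z = u + i v` with
`dz = ω`, as an integral over `x`: two points lie over a general `x`, and `|ω ∧ ω̄|` is the area
element of the plane of `x` divided by `|cubic x|`. -/
noncomputable def complexPeriod (W : WeierstrassCurve ℤ) : ℝ := 2 * (2 * ∫ x : ℂ, 1 / ‖cubic W x‖)

section tensor

/-! ### The abelian variety `A = E ⊗ M`, `M = ℤ^g`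

Its points over an algebraic closure of `ℚ` are the `g`-tuples of points of `E`; the Galois group of `ℚ`
acts on them by its action on `E` and the matrices `R(σ)`. -/

/-- The action of an integral matrix on `ℤ^g ⊗ G = G^g`. -/
def mat {G : Type} [AddCommGroup G] {g : ℕ} (A : Matrix (Fin g) (Fin g) ℤ) (P : Fin g → G) :
    Fin g → G := fun i => ∑ j, A i j • P j

variable {g : ℕ} (W : WeierstrassCurve ℤ) (R : Gal ℚ →* GL (Fin g) ℤ)

/-- The points of `A` over an extension of `ℚ` over which the action on `M` is trivial. -/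
abbrev PtA (g : ℕ) (L : Type) [Field L] [Algebra ℚ L] : Type := Fin g → Pt (base W ℚ) L

/-- The action of the Galois group on the points of `A`: `σ` applied to the coordinates, and then the
matrix `R(σ)`. -/
noncomputable def actA (σ : Gal ℚ) (P : PtA W g (AlgebraicClosure ℚ)) :
    PtA W g (AlgebraicClosure ℚ) :=
  mat (R σ : Matrix (Fin g) (Fin g) ℤ) (fun i => act (base W ℚ) σ.toAlgHom (P i))

/-- `A(ℚ)`. -/
def ptsA : Set (PtA W g (AlgebraicClosure ℚ)) := {P | ∀ σ : Gal ℚ, actA W R σ P = P}

/-- `f` is a continuous cocycle with values in `A`: `f (σ τ) = f σ + σ (f τ)`. -/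
def IsCocycle (f : Gal ℚ → PtA W g (AlgebraicClosure ℚ)) : Prop :=
  IsLocallyConstant f ∧ ∀ σ τ : Gal ℚ, f (σ * τ) = f σ + actA W R σ (f τ)

/-- `f` is a coboundary: `f σ = σ P - P`. -/
def IsCoboundary (f : Gal ℚ → PtA W g (AlgebraicClosure ℚ)) : Prop :=
  ∃ P : PtA W g (AlgebraicClosure ℚ), ∀ σ : Gal ℚ, f σ = actA W R σ P - P

/-- For every embedding of the algebraic closures the restriction of `f` to the absolute Galois
group of `k` is a coboundary: `f σ = τ P - P` for `τ` in this group with restriction `σ`. -/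
def LocTriv (k : Type) [Field k] [Algebra ℚ k] (f : Gal ℚ → PtA W g (AlgebraicClosure ℚ)) : Prop :=
  ∀ ι : AlgebraicClosure ℚ →ₐ[ℚ] AlgebraicClosure k, ∃ P : PtA W g (AlgebraicClosure k),
    ∀ (τ : Gal k) (σ : Gal ℚ), (∀ x, τ (ι x) = ι (σ x)) →
      (fun i => act (base W ℚ) ι (f σ i)) = mat (R σ : Matrix (Fin g) (Fin g) ℤ)
        (fun i => act (base W ℚ) (τ.toAlgHom.restrictScalars ℚ) (P i)) - P

/-- `f` is a continuous cocycle that is locally trivial at all the places of `ℚ`; its class is an
element of `Ш(A/ℚ)`, and this is zero if and only if `f` is a coboundary. -/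
def IsShaCocycle (f : Gal ℚ → PtA W g (AlgebraicClosure ℚ)) : Prop :=
  IsCocycle W R f ∧ (∀ (p : ℕ) [Fact p.Prime], LocTriv W R ℚ_[p] f) ∧ LocTriv W R ℝ f

end tensor

section lattice

variable {K : Type} [Field K] [NumberField K] {g : ℕ} (ρ : (K ≃ₐ[ℚ] K) →* GL (Fin g) ℤ)

/-- The Frobenius automorphisms at the place `v`: the automorphisms `σ` of `K` with
`σ x = x ^ p` modulo `v` for all the integers `x` of `K`, where `p` is the prime number below `v`.
They are a coset of the inertia group of `v`. -/
def FrobSet (v : HeightOneSpectrum (𝓞 K)) : Set (K ≃ₐ[ℚ] K) :=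
  {σ | IsArithFrobAt ℤ σ v.asIdeal}

/-- The action of the Frobenius automorphism at `v` on the vectors of `ℂ^g` fixed by the inertia
group of `v`, extended by zero: the average of the matrices `ρ(σ)` over all the Frobenius
automorphisms `σ` at `v`. -/
noncomputable def frob (v : HeightOneSpectrum (𝓞 K)) : Matrix (Fin g) (Fin g) ℂ :=
  (Nat.card (FrobSet v) : ℂ)⁻¹ •
    ∑ᶠ σ : FrobSet v, (ρ σ.1 : Matrix (Fin g) (Fin g) ℤ).map (Int.cast : ℤ → ℂ)

/-- The Euler factor of `L(A, s)` at the prime number `p`, `A = E ⊗ M`, where `v` is a place of `K`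
above `p`: `det (1 - a_p p^(-s) Φ + p^(1 - 2 s) Φ²)⁻¹` for `Φ = frob ρ v`, without the last term if
`p` divides the discriminant of `E` (the curve is `y² + y = x³`, with additive reduction at `3`, where
`a_3 = 0` and the factor is `1`); `a_p = p - pts` as `pts` does not count the point at infinity. -/
noncomputable def euler (W : WeierstrassCurve ℤ) (v : HeightOneSpectrum (𝓞 K)) (s : ℂ) (p : ℕ) :
    ℂ :=
  (1 - ((((p : ℤ) - pts W (ZMod p) : ℤ) : ℂ) * (p : ℂ) ^ (-s)) • frob ρ v +
    (if (p : ℤ) ∣ W.Δ then 0 else (p : ℂ) ^ (1 - 2 * s)) • frob ρ v ^ 2).det⁻¹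

/-- The rank of the sublattice of `M` fixed by the automorphism `c`. -/
noncomputable def plus (c : K ≃ₐ[ℚ] K) : ℕ :=
  Module.finrank ℤ (LinearMap.ker (Matrix.toLin' ((ρ c : Matrix (Fin g) (Fin g) ℤ) - 1)))

/-- `V_∞ = ∫_{A(ℝ)} |ω|` for `A = E ⊗ M` and the product differential, where `c` is the complex
conjugation and the discriminant of `E` is negative. -/
noncomputable def Vinf (W : WeierstrassCurve ℤ) (c : K ≃ₐ[ℚ] K) : ℝ :=
  realPeriod W ^ plus ρ c * (complexPeriod W / realPeriod W) ^ (g - plus ρ c)

end lattice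

/-- The contragredient: `A ↦ (A⁻¹)ᵀ`.  It gives the action on the dual lattice `M^∨`. -/
noncomputable def contra (g : ℕ) : GL (Fin g) ℤ →* GL (Fin g) ℤ where
  toFun A := ⟨((A⁻¹ : GL (Fin g) ℤ) : Matrix (Fin g) (Fin g) ℤ).transpose,
    ((A : GL (Fin g) ℤ) : Matrix (Fin g) (Fin g) ℤ).transpose, by
      rw [← Matrix.transpose_mul, ← Units.val_mul, mul_inv_cancel, Units.val_one,
        Matrix.transpose_one], by
      rw [← Matrix.transpose_mul, ← Units.val_mul, inv_mul_cancel, Units.val_one,
        Matrix.transpose_one]⟩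
  map_one' := by
    apply Units.ext
    show ((1⁻¹ : GL (Fin g) ℤ) : Matrix (Fin g) (Fin g) ℤ).transpose = 1
    rw [inv_one, Units.val_one, Matrix.transpose_one]
  map_mul' A B := by
    apply Units.ext
    show (((A * B)⁻¹ : GL (Fin g) ℤ) : Matrix (Fin g) (Fin g) ℤ).transpose =
      ((A⁻¹ : GL (Fin g) ℤ) : Matrix (Fin g) (Fin g) ℤ).transpose *
        ((B⁻¹ : GL (Fin g) ℤ) : Matrix (Fin g) (Fin g) ℤ).transpose
    rw [mul_inv_rev, Units.val_mul, Matrix.transpose_mul]

/-- **The 2-part of the Birch and Swinnerton-Dyer conjecture** for `A = E ⊗ M` over `ℚ`,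
`E : y² + y = x³`, all the terms being odd: the groups of the rational points of `A` and of its
dual are finite of odd order; the 2-primary part of the Tate-Shafarevich group is zero; the
`L`-function is continued to `ℂ`, it is analytic at `1`, its order at `s = 1` is the rank `0`, and
`L(A, 1) / V_∞` is a unit at every valuation `w` of the field of complex numbers with `w 2 < 1`.  Here
`r` is the restriction of the automorphisms to `K`, and `ρ ∘ r` the action of the Galois group of `ℚ`
on `M`. -/
structure TwoPart {K : Type} [Field K] [NumberField K] {g : ℕ}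
    (ρ : (K ≃ₐ[ℚ] K) →* GL (Fin g) ℤ) (r : Gal ℚ →* (K ≃ₐ[ℚ] K)) : Prop where
  points : Finite (ptsA curve (ρ.comp r)) ∧ Odd (Nat.card (ptsA curve (ρ.comp r)))
  dual : Finite (ptsA curve (((contra g).comp ρ).comp r)) ∧
    Odd (Nat.card (ptsA curve (((contra g).comp ρ).comp r)))
  sha : ∀ f, IsShaCocycle curve (ρ.comp r) f → ∀ k : ℕ, IsCoboundary curve (ρ.comp r) (2 ^ k • f) →
    IsCoboundary curve (ρ.comp r) f
  formula : 0 < realPeriod curve ∧ 0 < complexPeriod curve ∧
    ∃ L : ℂ → ℂ, MeromorphicOn L Set.univ ∧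
      (∀ V : Nat.Primes → HeightOneSpectrum (𝓞 K),
        (∀ p : Nat.Primes, ((p : ℕ) : 𝓞 K) ∈ (V p).asIdeal) → ∀ s : ℂ, 3 / 2 < s.re →
        HasProd (fun p : Nat.Primes => euler ρ curve (V p) s p) (L s)) ∧
      AnalyticAt ℂ L 1 ∧ analyticOrderAt L 1 = 0 ∧
      ∀ (φ : K →+* ℂ) (c : K ≃ₐ[ℚ] K), (∀ x : K, φ (c x) = (starRingEnd ℂ) (φ x)) →
        ∀ (Γ : Type) [LinearOrderedCommGroupWithZero Γ] (w : Valuation ℂ Γ), w 2 < 1 →
          w (L 1 / (Vinf ρ curve c : ℂ)) = 1

/-- **Main theorem.** Let `F` be the field of third roots of unity and let `K ⊇ F` be a Galois extension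
of `ℚ`, of degree `2 ^ n` over `F`, with an Artin map `art` over `F` of modulus `m`, where `2` is not
a cube modulo any prime number that divides `m`.  Let `ρ` be any action of the Galois group of `K / ℚ`
on `M = ℤ^g`, where `g` is arbitrary.  Then the 2-part of the Birch and Swinnerton-Dyer conjecture holds
for the abelian variety `A = E ⊗ M`, `E : y² + y = x³`: the orders of `A(ℚ)`, `A'(ℚ)` are odd,
`Ш(A)[2^∞] = 0` and `L(A, 1)` is a unit at 2 times the volume `V_∞`. -/
theorem result (F K : Type) [Field F] [NumberField F] [IsCyclotomicExtension {3} ℚ F] [Field K]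
    [NumberField K] [Algebra F K] [IsGalois ℚ K] (n : ℕ) (hn : Module.finrank F K = 2 ^ n)
    (m : ℕ) (hm : ∀ p : ℕ, p.Prime → p ∣ m → ∀ x : ZMod p, x ^ 3 ≠ 2)
    (art : (𝓞 F ⧸ Ideal.span {(m : 𝓞 F)})ˣ →* Gal(K/F)) (hart : IsArtin (m : 𝓞 F) art)
    (g : ℕ) (ρ : (K ≃ₐ[ℚ] K) →* GL (Fin g) ℤ) (e : K →+* AlgebraicClosure ℚ)
    (r : Gal ℚ →* (K ≃ₐ[ℚ] K)) (hr : ∀ (τ : Gal ℚ) (x : K), τ (e x) = e (r τ x)) :
    TwoPart ρ r := by
  obtain ⟨h1, h2, h3, h4⟩ := Pool.Agent.R431.B.main hn hm hart ρ e r hr
  obtain ⟨h5, h6, L, l1, l2, l3, l4, l5⟩ := h4 (realPeriod curve) (complexPeriod curve) rfl rfl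
  refine ⟨h1, h2, fun f hf k hk => h3 f hf k hk, h5, h6, L, l1, fun V hV s hs => l2 V hV s hs, l3,
    analyticOrderAt_eq_zero.2 (Or.inr l4), fun φ c _ Γ _ w hw => ?_⟩
  refine l5 Γ w hw (plus ρ c) (g - plus ρ c) (Nat.add_sub_cancel' ?_)
  have h7 := Submodule.finrank_le
    (LinearMap.ker (Matrix.toLin' ((ρ c : Matrix (Fin g) (Fin g) ℤ) - 1)))
  rw [Module.finrank_fintype_fun_eq_card, Fintype.card_fin] at h7
  exact h7

end Pool.Agent.Results.MP_dfae13_nt.EisensteinTensor
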