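import Pool.Agent.R431.W.Loc
import Pool.Agent.R431.W.Pts
import Pool.Agent.R431.W.Lf
import Pool.Agent.Results.MP_9ab903_nt.TwoPartQuarticProportion

/-!
# The 2-part of the Birch and Swinnerton-Dyer conjecture for a positive proportion of the abelian
# surfaces `Res_{ℚ(i)/ℚ} E`, where `E` has the `j`-invariant `1728`

Let `K = ℚ(i)`.  The elliptic curves over `K` with `j`-invariant `1728` are the curves
`E_D : y² = x³ + D x`, for the Gaussian integers `D` which no fourth power of a prime divides.  We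
consider the restrictions of scalars `A_D = Res_{K/ℚ} E_D`; they are abelian surfaces over `ℚ` with
an action of `ℤ[i]`, principally polarized, so that `A_D' = A_D`; over the algebraic closure `A_D` is
isomorphic to the square of `y² = x³ - x`.  For a positive proportion of all the `D`, ordered by norm, we prove: `A_D(ℚ)` has order two, `Ш(A_D/ℚ)[2^∞] = 0`,
the `L`-function of `A_D` is entire, `L(A_D, 1) ≠ 0`, and
`L(A_D, 1) #A_D(ℚ) #A_D'(ℚ) / (V_∞ ∏ c_p)`, which should be the order of `Ш(A_D/ℚ)`, is a unit at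
every valuation of `ℂ` above `2`.

The points of `A_D` over an algebraic closure of `ℚ`, with the action of the Galois group, and
`Ш(A_D/ℚ)`, defined by cocycles which are trivial at all the `ℚ_p` and at `ℝ`, are in
`Pool.Agent.R431.W.Defs`.  The volumes: the Néron model of `A_D` is the restriction of scalars of
that of `E_D`, so that `ω` takes the values `1`, `-1` on a basis of the lattice `𝓞_K` of tangent
vectors, in units dual to the Néron differential of `E_D`, and
`V_∞ = ∫_{A_D(ℝ)} |ω| = ∫_{ℂ/Λ} (2 / √|disc K|) dx dy` for the period lattice `Λ` of `E_D`, and the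
Tamagawa number `c_p` of `A_D` is the product of the Tamagawa numbers `c_v` of `E_D` for `v ∣ p`.  The
`L`-function has its Euler factors at all the primes, so that the factor of `V_bad` at `p`,
`c_p #𝒜⁰(𝔽_p) / p² = c_p P_p(1 / p)`, is replaced by `c_p`.
-/

set_option autoImplicit false

namespace Pool.Agent.Results.MP_dfae13_nt.GaussianSurfaces

open NumberField IsDedekindDomain

open Pool.Agent.R431.W (ptsA ShaTrivial euler)

/-- The curve `E_D : y² = x³ + D x`. -/
noncomputable def curve {K : Type} [Field K] [NumberField K] (e : GaussianInt ≃+* 𝓞 K)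
    (D : GaussianInt) : WeierstrassCurve K :=
  ⟨0, 0, 0, algebraMap (𝓞 K) K (e D), 0⟩

open scoped Classical in
/-- The equation `E` is minimal at every finite place `v`, and `c v` is the Tamagawa number of `E` at
`v`: the index in `E(K_v)` of the subgroup of the points of nonsingular reduction. -/
def IsTamagawa {K : Type} [Field K] [NumberField K] (E : WeierstrassCurve K)
    (c : HeightOneSpectrum (𝓞 K) → ℕ) : Prop :=
  (∀ v : HeightOneSpectrum (𝓞 K),
    (E.baseChange (v.adicCompletion K)).IsMinimal (v.adicCompletionIntegers K) ∧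
    ∃ H : AddSubgroup (E.baseChange (v.adicCompletion K)).toAffine.Point,
      (∀ P, P ∈ H ↔ Pool.Agent.Y696.NonsingRed Valued.v (E.baseChange (v.adicCompletion K)) P) ∧
      H.index = c v) ∧
  {v | c v ≠ 1}.Finite

/-- `Λ` is the lattice of periods of the differential `dx / (2y + a₁x + a₃)` of the curve `E`, embedded
in the complex numbers by `σ`. -/
def IsPeriodLattice {K : Type} [Field K] (E : WeierstrassCurve K) (σ : K →+* ℂ)
    (Λ : PeriodPair) : Prop :=
  Λ.g₂ = σ E.c₄ / 12 ∧ Λ.g₃ = σ E.c₆ / 216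

/-- `V_∞ = ∫_{A(ℝ)} |ω|` for `A = Res_{K/ℚ} E`, `K` imaginary quadratic: the area of a fundamental
parallelogram of the period lattice of `E` times `2 / √|disc K|`. -/
noncomputable def Vinf (K : Type) [Field K] [NumberField K] (Λ : PeriodPair) : ℝ :=
  2 * |((starRingEnd ℂ) Λ.ω₁ * Λ.ω₂).im| / Real.sqrt |(discr K : ℝ)|

/-- The Birch and Swinnerton-Dyer conjecture for the abelian surface `A = Res_{K/ℚ} E`, `K` imaginary
quadratic, with `A(ℚ)` finite and `Ш(A/ℚ)[2^∞] = 0`, the formula up to units at the valuations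
above `2`: `L(A, s)` is entire, `L(A, 1) ≠ 0`, and `L(A, 1) #A(ℚ)² / (V_∞ ∏ c_v)` is a unit at every
valuation `w` of the field of complex numbers with `w 2 < 1`. -/
def TwoPart {K : Type} [Field K] [NumberField K] (E : WeierstrassCurve K) : Prop :=
  (ptsA E).Finite ∧ ShaTrivial E 2 ∧
  ∃ (L : ℂ → ℂ) (c : HeightOneSpectrum (𝓞 K) → ℕ),
    Differentiable ℂ L ∧
    (∀ s : ℂ, 3 / 2 < s.re → HasProd (fun p : Nat.Primes => euler E s p) (L s)) ∧
    L 1 ≠ 0 ∧
    IsTamagawa E c ∧
    ∀ σ : K →+* ℂ, (∃ Λ : PeriodPair, IsPeriodLattice E σ Λ) ∧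
      ∀ Λ : PeriodPair, IsPeriodLattice E σ Λ →
        ∀ (Γ : Type) [LinearOrderedCommGroupWithZero Γ] (w : Valuation ℂ Γ), w 2 < 1 →
          w (L 1 * (Nat.card (ptsA E) : ℂ) ^ 2 /
            ((Vinf K Λ : ℂ) * ((∏ᶠ v, c v : ℕ) : ℂ))) = 1

/-- `D` is not zero and no fourth power of a prime divides it. -/
def FourthPowerFree (D : GaussianInt) : Prop := D ≠ 0 ∧ ∀ π : GaussianInt, Prime π → ¬ π ^ 4 ∣ D

/-- All the parameters `D` of norm at most `X`; each of them is one elliptic curve over `ℚ(i)` with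
`j = 1728`, up to isomorphism. -/
def Family (X : ℕ) : Set GaussianInt := {D | FourthPowerFree D ∧ D.norm ≤ X}

/-- The parameters `D` in `Family X` such that, for `K = ℚ(i)` (every number field `K` with an
isomorphism `e` of `ℤ[i]` with its ring of integers) and `A_D = Res_{K/ℚ} E_D`, the group `A_D(ℚ)`
has exactly two elements and `A_D` satisfies `TwoPart`. -/
def Proved (X : ℕ) : Set GaussianInt :=
  {D | D ∈ Family X ∧
    ∀ (K : Type) [Field K] [NumberField K] (e : GaussianInt ≃+* 𝓞 K),
      Nat.card (ptsA (curve e D)) = 2 ∧ TwoPart (curve e D)}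

/-- The criterion. -/
theorem surface_good {D : GaussianInt} (hg : Pool.Agent.Y699.Good4 D) (K : Type) [Field K]
    [NumberField K] (e : GaussianInt ≃+* 𝓞 K) :
    Nat.card (ptsA (curve e D)) = 2 ∧ TwoPart (curve e D) := by
  obtain ⟨h1, h2, h3, L, c, h4, h5, h6, h7, h8⟩ :=
    Pool.Agent.Results.MP_9ab903_nt.TwoPartQuarticProportion.curve_good hg K e
  have hcard : Nat.card (ptsA (curve e D)) = Nat.card (curve e D).toAffine.Point :=
    (Nat.card_congr (Pool.Agent.R431.W.globE (curve e D))).symm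
  have h1' : Nat.card (curve e D).toAffine.Point = 2 := h1
  have hc2 := Pool.Agent.Y699.comp_mod hg.ps.prm hg.nm
  have hP := Pool.Agent.Y715.Z.two_of_good hg
  refine ⟨hcard.trans h1', ?_, ?_, L, c, h4, ?_, h6, h7, fun σ => ⟨(h8 σ).1, ?_⟩⟩
  · exact Set.finite_coe_iff.1 (Nat.finite_of_card_ne_zero (by
      rw [hcard, h1']; norm_num))
  · intro n
    exact (Pool.Agent.R431.W.sha_iff (curve e D) (2 ^ n)).2 (fun x hx => h3 n x hx)
  · intro s hs
    rw [(h5 s hs).2]
    exact Pool.Agent.R431.W.hasProd_euler (curve e D)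
      (fun v => (Pool.Agent.Y715.Z.loc4 e hg.ps.sqf hg.ps.prm hc2.1 hc2.2 hP v s).1) hs
  · intro Λ hΛ Γ _ w hw
    have h9 := (h8 σ).2 Λ hΛ Γ w hw
    refine Eq.trans (congrArg w ?_) h9
    rw [hcard]
    have h10 : (Vinf K Λ : ℂ) =
        ((Pool.Agent.Results.MP_9ab903_nt.TwoPartQuarticProportion.period Λ : ℝ) : ℂ) /
          ((Real.sqrt |(discr K : ℝ)| : ℝ) : ℂ) := by
      rw [← Complex.ofReal_div]
      rfl
    rw [h10]
    have h11 : ((Real.sqrt |(discr K : ℝ)| : ℝ) : ℂ) ≠ 0 := by
      rw [Ne, Complex.ofReal_eq_zero, Real.sqrt_eq_zero (abs_nonneg _), abs_eq_zero]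
      exact_mod_cast discr_ne_zero K
    show L 1 * (Nat.card (curve e D).toAffine.Point : ℂ) ^ 2 / _ =
      L 1 * _ * (Nat.card (curve e D).toAffine.Point : ℂ) ^ 2 / _
    field_simp

/-- **Main theorem.**  Let `K = ℚ(i)`.  There is `c > 0` such that for all large `X` at least the
proportion `c` of all Gaussian integers `D` of norm at most `X` that no fourth power of a prime divides,
and at least `c X` of them, have the property that for `E_D : y² = x³ + D x` over `K` and the abelian
surface `A_D = Res_{K/ℚ} E_D` over `ℚ`: `A_D(ℚ)` has exactly two elements, `Ш(A_D/ℚ)[2^∞] = 0`,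
`L(A_D, s)` is entire with `L(A_D, 1) ≠ 0`, and `L(A_D, 1) #A_D(ℚ)² / (V_∞ ∏ c_p)` is a unit at every
valuation above `2`. -/
theorem result : ∃ c : ℝ, 0 < c ∧ ∃ X₀ : ℕ, ∀ X : ℕ, X₀ ≤ X →
    c * ((Family X).ncard : ℝ) ≤ ((Proved X).ncard : ℝ) ∧ c * X ≤ ((Proved X).ncard : ℝ) := by
  obtain ⟨c, hc, X₀, h⟩ := Pool.Agent.Y699.positive₄
  have hfin : ∀ X, (Family X).Finite :=
    Pool.Agent.Results.MP_9ab903_nt.TwoPartQuarticProportion.family_finite
  have key : ∀ X : ℕ, X₀ ≤ X → c * X ≤ ((Proved X).ncard : ℝ) := by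
    intro X hX
    refine (h X hX).trans ?_
    have h1 : ((Pool.Agent.Y699.GB₄ X : Finset GaussianInt) : Set GaussianInt) ⊆ Proved X := by
      intro D hD
      have h2 : D ∈ Pool.Agent.Y699.SB X ∧ Pool.Agent.Y699.Good4 D := by
        have h0 := Finset.mem_coe.1 hD
        unfold Pool.Agent.Y699.GB₄ at h0
        classical
        exact Finset.mem_filter.1 h0
      have h3 := (Pool.Agent.Y699.mem_SB).1 h2.1
      refine ⟨⟨⟨h3.2.ne, fun π hπ h5 => ?_⟩, ?_⟩, fun K _ _ e => surface_good h2.2 K e⟩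
      · exact hπ.not_isUnit (h3.2.sqf π (dvd_trans ⟨π ^ 2, by ring⟩ h5))
      · have h4 : D.norm.natAbs ≤ X := h3.1
        omega
    have h5 := Set.ncard_le_ncard h1 ((hfin X).subset fun D hD => hD.1)
    rw [Set.ncard_coe_finset] at h5
    exact_mod_cast h5
  refine ⟨c / 9, by positivity, max X₀ 1, fun X hX => ?_⟩
  have hX0 : X₀ ≤ X := (le_max_left _ _).trans hX
  have hX1 : 1 ≤ X := (le_max_right _ _).trans hX
  have h1 := key X hX0
  have h2 : ((Family X).ncard : ℝ) ≤ 9 * X := by
    exact_mod_cast Pool.Agent.Results.MP_9ab903_nt.TwoPartQuarticProportion.family_le hX1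
  have h3 : (0 : ℝ) ≤ X := Nat.cast_nonneg X
  constructor
  · calc c / 9 * ((Family X).ncard : ℝ) ≤ c / 9 * (9 * X) :=
          mul_le_mul_of_nonneg_left h2 (by positivity)
      _ = c * X := by ring
      _ ≤ _ := h1
  · calc c / 9 * (X : ℝ) ≤ c * X := by nlinarith
      _ ≤ _ := h1

end Pool.Agent.Results.MP_dfae13_nt.GaussianSurfaces
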